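import Pool.Agent.H200P.Stm

/-! Project PK, jobs SLABS and SLABE: slabs. -/

set_option autoImplicit false

namespace Q162.PK

open Finset Pool.Agent.TH176.Nag Pool.Agent.TH603.Sur Pool.Agent.TH2.NU Pool.Agent.TH641.UM
open Pool.Agent.Y205.FW Pool.Agent.Y205.MD Pool.Agent.H200W Pool.Agent.H200P

lemma pm_cons (p : ℕ × ℕ) (B : List (ℕ × ℕ)) : pm (p :: B) = {p.1, p.2} + pm B := rfl

lemma sq1_cons (p : ℕ × ℕ) (B : List (ℕ × ℕ)) :
    sq1 (p :: B) = (((p.1 : ℝ) + 1) ^ 2 + ((p.2 : ℝ) + 1) ^ 2) + sq1 B := by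
  unfold sq1
  rw [List.map_cons, List.sum_cons]

lemma sq0_cons (p : ℕ × ℕ) (B : List (ℕ × ℕ)) :
    sq0 (p :: B) = ((p.1 : ℝ) ^ 2 + (p.2 : ℝ) ^ 2) + sq0 B := by
  unfold sq0
  rw [List.map_cons, List.sum_cons]

theorem slabS : S_SlabS := by
  intro hbox hquad h u G hh hG hu huG B
  induction B with
  | nil =>
    intro w D hw _ hD
    rw [List.map_nil, List.sum_nil] at hD
    have h1 : GoodS h u (QO w D) (2 * w * D - w ^ 2 - 6 * D) :=
      hquad hh hG hu huG hw (by linarith)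
    have h2 := Pool.Agent.H200P.GoodS.toK h1
    have e1 : pm [] = 0 := rfl
    have e2 : sq1 [] = 0 := rfl
    rw [e1, e2, sub_zero]
    exact h2
  | cons p B ih =>
    obtain ⟨M, M'⟩ := p
    intro w D hw hB hD
    rw [List.map_cons, List.sum_cons] at hD
    have hp := hB (M, M') (List.mem_cons_self ..)
    simp only at hp
    set m : ℝ := max (M : ℝ) (M' : ℝ) with hm
    have hht : ht G (M, M') = m + 2 + 2 * G := rfl
    rw [hht] at hD
    have hM1 : (M : ℝ) ≤ m := le_max_left _ _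
    have hM2 : (M' : ℝ) ≤ m := le_max_right _ _
    have hm0 : 0 ≤ m := le_trans (Nat.cast_nonneg M) hM1
    have hMn : (0 : ℝ) ≤ M := Nat.cast_nonneg M
    have hMn' : (0 : ℝ) ≤ M' := Nat.cast_nonneg M'
    have hmw : m + 2 + 13 * G ≤ w := by
      have : m ≤ w - 2 - 13 * G := max_le (by linarith) (by linarith)
      linarith
    have hG5 : 5 ≤ G := by linarith
    have hS0 : 0 ≤ (B.map (ht G)).sum := by
      refine List.sum_nonneg fun x hx => ?_
      rw [List.mem_map] at hx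
      obtain ⟨q, -, rfl⟩ := hx
      unfold ht
      have : (0 : ℝ) ≤ max (q.1 : ℝ) (q.2 : ℝ) := le_trans (Nat.cast_nonneg q.1) (le_max_left _ _)
      linarith
    rw [pm_cons, sq1_cons]
    simp only
    refine divKS (t0 := m + 2 + G) (t1 := m + 2 + 2 * G) (fun t => BO w t)
      (fun t => {p : ℤ × ℤ | t < (p.2 : ℝ) ∧ p ∈ QO w D})
      (fun t => 2 * w * t - ((M : ℝ) + 1) ^ 2 - ((M' : ℝ) + 1) ^ 2 - 6 * t)
      (fun t => 2 * w * (D - t) - w ^ 2 - sq1 B - 6 * (D - t)) (by linarith) ?_ ?_ ?_ hu ?_ ?_ ?_ ?_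
    · exact Continuous.continuousOn (by fun_prop)
    · nlinarith
    · nlinarith
    · intro t _
      exact le_of_eq (by ring)
    · intro t ht'
      exact hbox hh hG hu huG (by linarith [ht'.1]) (by linarith [ht'.1]) (by linarith [ht'.1])
        hp.1 hp.2
    · intro t ht'
      refine (ih w (D - t) hw (fun q hq => hB q (List.mem_cons_of_mem _ hq))
        (by linarith [ht'.2])).mono le_rfl ?_
      intro K hK
      refine Sur.shift hK 0 (-⌊t⌋) ?_
      rintro q ⟨q1, q2, q3, q4⟩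
      have f1 := Int.floor_le t
      have f2 := Int.lt_floor_add_one t
      have q5 : (1 : ℝ) ≤ q.2 := by exact_mod_cast q2
      have g1 : t < ((q.2 - -⌊t⌋ : ℤ) : ℝ) := by
        push_cast
        linarith
      refine ⟨g1, ?_, ?_, ?_, ?_⟩
      · simpa using q1
      · have : (0 : ℝ) < ((q.2 - -⌊t⌋ : ℤ) : ℝ) := by linarith [ht'.1]
        exact_mod_cast this
      · simpa using q3
      · push_cast
        linarith
    · intro t ht' M1 M2 g1 g2
      refine p_cutS 0 1 t ?_ ?_ g1 g2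
      · rintro q ⟨q1, q2, q3, q4⟩
        exact ⟨⟨q1, q2, q3, by linarith [ht'.2]⟩, by linarith⟩
      · rintro q ⟨q1, q2⟩
        exact ⟨q2, by linarith⟩

lemma QC_finite (w D : ℝ) : (QC w D).Finite := by
  refine Set.Finite.subset (Set.finite_Icc ((0 : ℤ), (0 : ℤ)) (⌊w⌋, ⌊D⌋)) ?_
  rintro q ⟨q1, q2, q3, q4⟩
  have q5 : (0 : ℝ) ≤ q.1 := by exact_mod_cast q1
  exact ⟨⟨q1, q2⟩, ⟨Int.le_floor.2 q3, Int.le_floor.2 (by linarith)⟩⟩

lemma sq0_le {G w : ℝ} (hG : 5 ≤ G) (B : List (ℕ × ℕ))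
    (hB : ∀ p ∈ B, (p.1 : ℝ) + 2 + 13 * G ≤ w ∧ (p.2 : ℝ) + 2 + 13 * G ≤ w) :
    sq0 B ≤ 2 * w * (B.map (ht G)).sum := by
  induction B with
  | nil => simp [sq0]
  | cons p B ih =>
    rw [sq0_cons, List.map_cons, List.sum_cons]
    have h1 := ih fun q hq => hB q (List.mem_cons_of_mem _ hq)
    have hp := hB p (List.mem_cons_self ..)
    have h2 : (p.1 : ℝ) ^ 2 + (p.2 : ℝ) ^ 2 ≤ 2 * w * ht G p := by
      have a1 : (p.1 : ℝ) ≤ ht G p := by
        unfold ht
        have := le_max_left (p.1 : ℝ) (p.2 : ℝ)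
        linarith
      have a2 : (p.2 : ℝ) ≤ ht G p := by
        unfold ht
        have := le_max_right (p.1 : ℝ) (p.2 : ℝ)
        linarith
      have b1 : (0 : ℝ) ≤ p.1 := Nat.cast_nonneg _
      have b2 : (0 : ℝ) ≤ p.2 := Nat.cast_nonneg _
      have c1 : (p.1 : ℝ) * p.1 ≤ w * ht G p := mul_le_mul (by linarith) a1 b1 (by linarith)
      have c2 : (p.2 : ℝ) * p.2 ≤ w * ht G p := mul_le_mul (by linarith) a2 b2 (by linarith)
      nlinarith
    nlinarith

theorem slabE : S_SlabE := by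
  intro hbox hquad h u G hh hG hu huG B
  induction B with
  | nil =>
    intro w D hw _ hD
    rw [List.map_nil, List.sum_nil] at hD
    have h1 : GoodE h u (QC w D) (2 * w * D - w ^ 2) :=
      hquad hh hG hu huG hw (by linarith)
    have h2 := Pool.Agent.H200P.GoodE.toK h1
    have e1 : pm [] = 0 := rfl
    have e2 : sq0 [] = 0 := rfl
    rw [e1, e2, sub_zero]
    exact h2
  | cons p B ih =>
    obtain ⟨M, M'⟩ := p
    intro w D hw hB hD
    rw [List.map_cons, List.sum_cons] at hD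
    have hp := hB (M, M') (List.mem_cons_self ..)
    simp only at hp
    set m : ℝ := max (M : ℝ) (M' : ℝ) with hm
    have hht : ht G (M, M') = m + 2 + 2 * G := rfl
    rw [hht] at hD
    have hM1 : (M : ℝ) ≤ m := le_max_left _ _
    have hM2 : (M' : ℝ) ≤ m := le_max_right _ _
    have hm0 : 0 ≤ m := le_trans (Nat.cast_nonneg M) hM1
    have hMn : (0 : ℝ) ≤ M := Nat.cast_nonneg M
    have hMn' : (0 : ℝ) ≤ M' := Nat.cast_nonneg M'
    have hmw : m + 2 + 13 * G ≤ w := by
      have : m ≤ w - 2 - 13 * G := max_le (by linarith) (by linarith)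
      linarith
    have hG5 : 5 ≤ G := by linarith
    have hsq := sq0_le hG5 B fun q hq => hB q (List.mem_cons_of_mem _ hq)
    rw [pm_cons, sq0_cons]
    simp only
    refine divKE (t0 := m + 2 + G) (t1 := m + 2 + 2 * G) (fun t => BC w t)
      (fun t => {p : ℤ × ℤ | t < (p.2 : ℝ) ∧ p ∈ QC w D})
      (fun t => 2 * w * t - (M : ℝ) ^ 2 - (M' : ℝ) ^ 2)
      (fun t => 2 * w * (D - t) - w ^ 2 - sq0 B) (by linarith) ?_ ?_ ?_ hu ?_ ?_ ?_ ?_ ?_
    · exact Continuous.continuousOn (by fun_prop)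
    · nlinarith
    · nlinarith
    · intro t _
      exact le_of_eq (by ring)
    · intro t ht'
      have h1 : w + (B.map (ht G)).sum + 2 * G ≤ D - t := by linarith [ht'.2]
      have hw0 : 0 ≤ w := by linarith
      have h2 : 2 * w * (w + (B.map (ht G)).sum + 2 * G) ≤ 2 * w * (D - t) :=
        mul_le_mul_of_nonneg_left h1 (by linarith)
      have h3 : 0 ≤ w * G := by positivity
      nlinarith
    · intro t ht'
      exact hbox hh hG hu huG (by linarith [ht'.1]) (by linarith [ht'.1]) (by linarith [ht'.1])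
        hp.1 hp.2
    · intro t ht'
      refine (ih w (D - t) hw (fun q hq => hB q (List.mem_cons_of_mem _ hq))
        (by linarith [ht'.2])).mono le_rfl ?_
      intro K hK
      refine Emp.comap hK 1 0 0 1 0 (-⌊t⌋ - 1) (by norm_num) ?_
      rintro q ⟨q0, q1, q2, q3, q4⟩
      have f1 := Int.floor_le t
      have f2 := Int.lt_floor_add_one t
      have g1 : ⌊t⌋ < q.2 := Int.floor_lt.2 q0
      refine ⟨?_, ?_, ?_, ?_⟩
      · simpa using q1
      · simp only
        omega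
      · simpa using q3
      · push_cast
        linarith
    · intro t ht' M1 M2 g1 g2
      refine p_cutE 0 1 t (QC_finite w D) ?_ g1 g2
      rintro q ⟨q1, q2, q3, q4⟩
      rcases le_or_gt (q.2 : ℝ) t with g | g
      · left
        exact ⟨⟨q1, q2, q3, g⟩, by linarith⟩
      · right
        exact ⟨⟨g, q1, q2, q3, q4⟩, by linarith⟩

end Q162.PK
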