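import Pool.Agent.H200P.Stm
import Pool.Agent.Q162.PK.Slab

/-! Project PK, job TRIS: triangles. -/

set_option autoImplicit false

namespace Q162.PK

open Finset Pool.Agent.TH176.Nag Pool.Agent.TH603.Sur Pool.Agent.TH2.NU Pool.Agent.TH641.UM
open Pool.Agent.Y205.FW Pool.Agent.Y205.MD Pool.Agent.H200W Pool.Agent.H200P

lemma sq1_le {G W : ℝ} (hG : 5 ≤ G) (B : List (ℕ × ℕ))
    (hB : ∀ p ∈ B, (p.1 : ℝ) + 2 + 13 * G ≤ W ∧ (p.2 : ℝ) + 2 + 13 * G ≤ W) :
    sq1 B ≤ (2 * W - 6) * (B.map (ht G)).sum ∧ 0 ≤ (B.map (ht G)).sum := by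
  induction B with
  | nil => simp [sq1]
  | cons p B ih =>
    rw [sq1_cons, List.map_cons, List.sum_cons]
    obtain ⟨h1, h0⟩ := ih fun q hq => hB q (List.mem_cons_of_mem _ hq)
    have hp := hB p (List.mem_cons_self ..)
    have b1 : (0 : ℝ) ≤ p.1 := Nat.cast_nonneg _
    have b2 : (0 : ℝ) ≤ p.2 := Nat.cast_nonneg _
    have a1 : (p.1 : ℝ) + 1 ≤ ht G p := by
      unfold ht
      have := le_max_left (p.1 : ℝ) (p.2 : ℝ)
      linarith
    have a2 : (p.2 : ℝ) + 1 ≤ ht G p := by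
      unfold ht
      have := le_max_right (p.1 : ℝ) (p.2 : ℝ)
      linarith
    have c1 : ((p.1 : ℝ) + 1) * (p.1 + 1) ≤ (W - 3) * ht G p :=
      mul_le_mul (by linarith) a1 (by linarith) (by linarith)
    have c2 : ((p.2 : ℝ) + 1) * (p.2 + 1) ≤ (W - 3) * ht G p :=
      mul_le_mul (by linarith) a2 (by linarith) (by linarith)
    exact ⟨by nlinarith, by linarith⟩

theorem triS : S_TriS := by
  intro hslab hfit h u G hh hG hu huG L
  have hG5 : 5 ≤ G := by linarith
  induction L with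
  | nil =>
    intro D hD
    have hD' : 2 * G ≤ D := hD
    have h1 := Pool.Agent.H200P.GoodS.toK (topS (h := h) (u := u) (b := D) (t := 0) hh (by linarith))
    have e1 : pmT [] = 0 := rfl
    have e2 : sqT1 [] = 0 := rfl
    rw [e1, e2]
    refine h1.mono ?_ ?_
    · simp
    · intro K hK
      refine Sur.mono hK ?_
      rintro q ⟨q1, q2, q3⟩
      exact ⟨q2, by exact_mod_cast q1, by linarith⟩
  | cons x L ih =>
    obtain ⟨W, B⟩ := x
    intro D hD
    obtain ⟨hW, hB, hsum, hrest⟩ := hD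
    obtain ⟨hsq, hS0⟩ := sq1_le hG5 B hB
    have e1 : pmT ((W, B) :: L) = pm B + pmT L := rfl
    have e2 : sqT1 ((W, B) :: L) = sq1 B + sqT1 L := by
      unfold sqT1
      rw [List.map_cons, List.sum_cons]
    rw [e1, e2, List.length_cons]
    refine divKS (t0 := W) (t1 := W + G) (fun t => QO t D)
      (fun t => {p : ℤ × ℤ | t < (p.1 : ℝ) ∧ p ∈ DO D})
      (fun t => 2 * t * D - t ^ 2 - sq1 B - 6 * D)
      (fun t => (D - t) ^ 2 - sqT1 L - (6 * L.length + 1) * (D - t)) (by linarith) ?_ ?_ ?_ hu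
      ?_ ?_ ?_ ?_
    · exact Continuous.continuousOn (by fun_prop)
    · have h1 : (2 * W - 6) * (W + G + (B.map (ht G)).sum + 2 * G) ≤ (2 * W - 6) * D :=
        mul_le_mul_of_nonneg_left hsum (by linarith)
      nlinarith
    · nlinarith
    · intro t ht'
      have h1 : (0 : ℝ) ≤ (6 * L.length + 1) * t := by
        have : 0 ≤ t := by linarith [ht'.1]
        positivity
      push_cast
      nlinarith
    · intro t ht'
      exact hslab hh hG hu huG B t D (by linarith [ht'.1])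
        (fun p hp => ⟨by linarith [(hB p hp).1, ht'.1], by linarith [(hB p hp).2, ht'.1]⟩)
        (by linarith [ht'.2])
    · intro t ht'
      refine (ih (D - t) ((hfit (by linarith) L _ (D - t) hrest).1 (by linarith [ht'.2]))).mono
        le_rfl ?_
      intro K hK
      refine Sur.shift hK (-⌊t⌋) 0 ?_
      rintro q ⟨q1, q2, q4⟩
      have f1 := Int.floor_le t
      have f2 := Int.lt_floor_add_one t
      have q5 : (1 : ℝ) ≤ q.1 := by exact_mod_cast q1
      have g1 : t < ((q.1 - -⌊t⌋ : ℤ) : ℝ) := by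
        push_cast
        linarith
      refine ⟨g1, ?_, ?_, ?_⟩
      · have : (0 : ℝ) < ((q.1 - -⌊t⌋ : ℤ) : ℝ) := by linarith [ht'.1]
        exact_mod_cast this
      · simpa using q2
      · push_cast
        linarith
    · intro t ht' M1 M2 g1 g2
      refine p_cutS 1 0 t ?_ ?_ g1 g2
      · rintro q ⟨q1, q2, q3, q4⟩
        exact ⟨⟨q1, q2, q4⟩, by linarith⟩
      · rintro q ⟨q1, q2⟩
        exact ⟨q2, by linarith⟩

end Q162.PK
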